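import Mathlib
import Pool.Agent.Helper18.Peb.Side
import Pool.Agent.Helper18.Peb.St.PB8
import Pool.Agent.Helper18.Peb.St.PB9a

set_option autoImplicit false

/-! PB-9b: target in the core. -/

namespace Pool.Agent.Helper25.PB

open Finset Pool.Agent.Helper18.Peb

variable {V S : Type} [Fintype V] [DecidableEq V] [Fintype S] [DecidableEq S]
  {G : SimpleGraph V} {z : S → V}

theorem coreSum_le (D : Setup G z) (P : V → ℕ)
    (h : ∀ x, D.reg x = none → P x < 2 ^ 174) : coreSum D.reg P ≤ 213003 * 2 ^ 174 := by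
  have h1 : coreSum D.reg P ≤ #{x | D.reg x = none} • 2 ^ 174 := by
    unfold coreSum
    apply Finset.sum_le_card_nsmul
    intro x hx
    have hx' : D.reg x = none := by simpa using hx
    exact (h x hx').le
  refine h1.trans ?_
  rw [smul_eq_mul]
  exact Nat.mul_le_mul_right _ D.hncore

theorem case_core (D : Setup G z) (P : V → ℕ) (hP : (2 ^ 114 + 2 ^ 102) * (2 ^ 95 - 1) ≤ size P)
    (w : V) (hw : D.reg w = none) : Solvable G P (Pi.single w 2) := by
  by_cases hbig : ∃ x, D.reg x = none ∧ 2 ^ 174 ≤ P x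
  · obtain ⟨x, hx, hxP⟩ := hbig
    have h1 : Solvable G (Pi.single x (P x)) (Pi.single w 2) := by
      apply (D.hcore x w hx hw).solv
      rw [← pow_succ']
      exact hxP
    refine h1.mono ?_ (le_refl _)
    intro y
    by_cases hy : y = x
    · subst hy; simp
    · simp [hy]
  · have hsmall : ∀ x, D.reg x = none → P x < 2 ^ 174 := by
      intro x hx
      by_contra hc
      exact hbig ⟨x, hx, not_lt.mp hc⟩
    have h1 := coreSum_le D P hsmall
    have h2 := star_ineq D P
    have hT : 32 * (2 ^ 114 + 2 ^ 102) ≤ 32 * ∑ σ, tau D.reg P σ + (2 ^ 104 + 2 ^ 92) := by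
      generalize ∑ σ, tau D.reg P σ = T at h2 ⊢
      generalize coreSum D.reg P = X at h1 h2
      generalize size P = N at hP h2
      norm_num at h1 h2 hP ⊢
      omega
    have h3 := solv_tau D P
    rcases D.hcls w hw with ⟨i, -, hi⟩ | ⟨i, -, hi⟩ | ⟨-, hi⟩ | ⟨-, hi⟩
    · have h4 := caseI1 D.R D.hR (tau D.reg P) hT i
      exact (h3.trans h4).trans (hi.solv (by norm_num))
    · have h4 := caseI1 D.C D.hC (tau D.reg P) hT i
      exact (h3.trans h4).trans (hi.solv (by norm_num))
    · have h4 := caseI2 D.R D.hR (tau D.reg P) hT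
      exact (h3.trans h4).trans (hi.solv (by norm_num))
    · have h4 := caseI2 D.C D.hC (tau D.reg P) hT
      exact (h3.trans h4).trans (hi.solv (by norm_num))

end Pool.Agent.Helper25.PB
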